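import Pool.Agent.W2helper8.AF.HomStm

set_option autoImplicit false

/-!
# MP_a320f3_co, piece HOM: a bad set carries a nonzero cycle in the top dimension
-/

namespace Pool.Agent.W2helper92.AF

open Pool.Agent.W2helper8.AF Finset
open scoped Classical

universe u w

section basics

variable (k : Type w) [Field k] {V : Type u} [Fintype V] [LinearOrder V]

theorem bd_add (c d : Finset V → k) (τ : Finset V) :
    bd k (fun σ => c σ + d σ) τ = bd k c τ + bd k d τ := by
  unfold bd
  rw [← sum_add_distrib]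
  exact sum_congr rfl fun x _ => mul_add _ _ _

theorem bd_sub (c d : Finset V → k) (τ : Finset V) :
    bd k (fun σ => c σ - d σ) τ = bd k c τ - bd k d τ := by
  unfold bd
  rw [← sum_sub_distrib]
  exact sum_congr rfl fun x _ => mul_sub _ _ _

theorem bd_smul (r : k) (c : Finset V → k) (τ : Finset V) :
    bd k (fun σ => r * c σ) τ = r * bd k c τ := by
  unfold bd
  rw [mul_sum]
  exact sum_congr rfl fun x _ => by ring

theorem sgn_sq (x : V) (τ : Finset V) : sgn k x τ * sgn k x τ = 1 := by
  unfold sgn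
  rw [← mul_pow]
  simp

theorem sgn_ne (x : V) (τ : Finset V) : sgn k x τ ≠ 0 := by
  intro h
  have := sgn_sq k x τ
  rw [h, zero_mul] at this
  exact zero_ne_one this

theorem sgn_insert {x a : V} {ρ : Finset V} (ha : a ∉ ρ) :
    sgn k x (insert a ρ) = if a < x then - sgn k x ρ else sgn k x ρ := by
  unfold sgn
  rw [filter_insert]
  split_ifs with h
  · rw [card_insert_of_notMem (by simp [ha]), pow_succ]
    ring
  · rfl

theorem sgn_swap {x a : V} {ρ : Finset V} (hxa : x ≠ a) (ha : a ∉ ρ) (hx : x ∉ ρ) :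
    sgn k x (insert a ρ) * sgn k a (insert x ρ) = - (sgn k a ρ * sgn k x ρ) := by
  rw [sgn_insert k ha, sgn_insert k hx]
  rcases lt_or_gt_of_ne hxa with h | h
  · rw [if_neg (not_lt.2 h.le), if_pos h]
    ring
  · rw [if_pos h, if_neg (not_lt.2 h.le)]
    ring

/-- the cone over a chain -/
noncomputable def cone (a : V) (z : Finset V → k) (σ : Finset V) : k :=
  if a ∈ σ then sgn k a (σ.erase a) * z (σ.erase a) else 0

theorem bd_cone {a : V} {z : Finset V → k} (hz : ∀ τ, bd k z τ = 0)
    (hza : ∀ τ, a ∈ τ → z τ = 0) (τ : Finset V) : bd k (cone k a z) τ = z τ := by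
  by_cases ha : a ∈ τ
  · have h1 := hz (τ.erase a)
    have hna : a ∉ τ.erase a := notMem_erase a τ
    have hins : insert a (τ.erase a) = τ := insert_erase ha
    rw [hza τ ha]
    have h2 : bd k (cone k a z) τ = - (sgn k a (τ.erase a) * bd k z (τ.erase a)) := by
      unfold bd
      rw [mul_sum, ← sum_neg_distrib]
      refine sum_subset_zero_on_sdiff ?_ ?_ ?_
      · intro x hx
        rw [mem_filter] at hx ⊢
        exact ⟨hx.1, fun h => hx.2 (mem_of_mem_erase h)⟩
      · intro x hx
        rw [mem_sdiff, mem_filter, mem_filter] at hx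
        obtain ⟨⟨_, h3⟩, h4⟩ := hx
        have h5 : x ∈ τ := by
          by_contra h
          exact h4 ⟨mem_univ x, h⟩
        have h6 : x = a := by
          by_contra h
          exact h3 (mem_erase.2 ⟨h, h5⟩)
        subst h6
        rw [hins, hza τ ha]
        ring
      · intro x hx
        rw [mem_filter] at hx
        have hxa : x ≠ a := fun h => hx.2 (h ▸ ha)
        have hxe : x ∉ τ.erase a := fun h => hx.2 (mem_of_mem_erase h)
        have h3 : (insert x τ).erase a = insert x (τ.erase a) := by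
          rw [erase_insert_of_ne hxa]
        unfold cone
        rw [if_pos (mem_insert_of_mem ha), h3]
        have h4 := sgn_swap k hxa hna hxe
        rw [hins] at h4
        calc sgn k x τ * (sgn k a (insert x (τ.erase a)) * z (insert x (τ.erase a)))
            = (sgn k x τ * sgn k a (insert x (τ.erase a))) * z (insert x (τ.erase a)) := by ring
          _ = _ := by rw [h4]; ring
    rw [h2, h1]
    ring
  · unfold bd
    rw [sum_eq_single a]
    · unfold cone
      rw [if_pos (mem_insert_self a τ), erase_insert ha, ← mul_assoc, sgn_sq, one_mul]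
    · intro x _ hxa
      unfold cone
      rw [if_neg, mul_zero]
      intro h
      rcases mem_insert.1 h with h | h
      · exact hxa h.symm
      · exact ha h
    · intro h
      exact absurd (mem_filter.2 ⟨mem_univ a, ha⟩) h

end basics

section edges

variable {V : Type u} [Fintype V] [LinearOrder V]

/-- the edges inside a set, as increasing pairs -/
noncomputable def prs (G : SimpleGraph V) (C : Finset V) : Finset (V × V) :=
  (C ×ˢ C).filter fun p => p.1 < p.2 ∧ G.Adj p.1 p.2

theorem card_prs (G : SimpleGraph V) (C : Finset V) :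
    S G C + 2 * (prs G C).card = C.card ^ 2 := by
  have h1 : ((C ×ˢ C).filter fun p : V × V => G.Adj p.1 p.2).card + S G C = C.card ^ 2 := by
    have h2 : S G C = ((C ×ˢ C).filter fun p : V × V => ¬ G.Adj p.1 p.2).card := by
      unfold S nb
      rw [card_filter, sum_product]
      exact sum_congr rfl fun x _ => card_filter _ _
    rw [h2, card_filter_add_card_filter_not, card_product, sq]
  have h3 : ((C ×ˢ C).filter fun p : V × V => G.Adj p.1 p.2).card = 2 * (prs G C).card := by
    have h4 : (C ×ˢ C).filter (fun p : V × V => G.Adj p.1 p.2) =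
        prs G C ∪ (prs G C).image Prod.swap := by
      ext ⟨x, y⟩
      simp only [prs, mem_filter, mem_union, mem_product, mem_image, Prod.exists, Prod.swap_prod_mk,
        Prod.mk.injEq]
      constructor
      · rintro ⟨⟨hx, hy⟩, hxy⟩
        rcases lt_or_gt_of_ne (G.ne_of_adj hxy) with h | h
        · exact Or.inl ⟨⟨hx, hy⟩, h, hxy⟩
        · exact Or.inr ⟨y, x, ⟨⟨hy, hx⟩, h, hxy.symm⟩, rfl, rfl⟩
      · rintro (⟨⟨hx, hy⟩, h, hxy⟩ | ⟨y', x', ⟨⟨hy, hx⟩, h, hxy⟩, rfl, rfl⟩)
        · exact ⟨⟨hx, hy⟩, hxy⟩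
        · exact ⟨⟨hx, hy⟩, hxy.symm⟩
    rw [h4, card_union_of_disjoint, card_image_of_injective _ Prod.swap_injective]
    · ring
    · rw [disjoint_left]
      rintro ⟨x, y⟩ h5 h6
      rw [prs, mem_filter] at h5
      obtain ⟨⟨a, b⟩, h7, h8⟩ := mem_image.1 h6
      rw [prs, mem_filter] at h7
      rw [Prod.swap_prod_mk, Prod.mk.injEq] at h8
      obtain ⟨rfl, rfl⟩ := h8
      exact absurd (h5.2.1.trans h7.2.1) (lt_irrefl _)
  omega

variable (k : Type w) [Field k]

/-- the chain with given coefficients on the edges -/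
noncomputable def ch (P : Finset (V × V)) (f : P → k) (σ : Finset V) : k :=
  ∑ p : P, if σ = {p.1.1, p.1.2} then f p else 0

theorem pair_eq {a b c d : V} (h1 : a < b) (h2 : c < d)
    (h : ({a, b} : Finset V) = {c, d}) : a = c ∧ b = d := by
  have ha : a ∈ ({c, d} : Finset V) := h ▸ mem_insert_self a _
  have hb : b ∈ ({c, d} : Finset V) := h ▸ mem_insert_of_mem (mem_singleton_self b)
  rw [mem_insert, mem_singleton] at ha hb
  rcases ha with rfl | rfl <;> rcases hb with rfl | rfl
  · exact absurd h1 (lt_irrefl _)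
  · exact ⟨rfl, rfl⟩
  · exact absurd (h1.trans h2) (lt_irrefl _)
  · exact absurd h1 (lt_irrefl _)

theorem ch_pair {G : SimpleGraph V} {C : Finset V} (f : prs G C → k) (p : prs G C) :
    ch k (prs G C) f {p.1.1, p.1.2} = f p := by
  unfold ch
  rw [sum_eq_single p]
  · rw [if_pos rfl]
  · intro q _ hq
    rw [if_neg]
    intro h
    have hp := (mem_filter.1 p.2).2.1
    have hq' := (mem_filter.1 q.2).2.1
    obtain ⟨h1, h2⟩ := pair_eq hp hq' h
    exact hq (Subtype.ext (Prod.ext h1.symm h2.symm))
  · intro h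
    exact absurd (mem_univ p) h

theorem ch_supp {G : SimpleGraph V} {C : Finset V} (f : prs G C → k) (σ : Finset V)
    (h : ch k (prs G C) f σ ≠ 0) : G.IsNClique 2 σ ∧ σ ⊆ C := by
  unfold ch at h
  obtain ⟨p, _, hp⟩ := exists_ne_zero_of_sum_ne_zero h
  have h1 : σ = {p.1.1, p.1.2} := by
    by_contra hn
    rw [if_neg hn] at hp
    exact hp rfl
  have h2 := mem_filter.1 p.2
  rw [mem_product] at h2
  rw [h1]
  refine ⟨?_, ?_⟩
  · rw [SimpleGraph.isNClique_iff]
    refine ⟨?_, card_pair (G.ne_of_adj h2.2.2)⟩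
    intro x hx y hy hxy
    rw [mem_coe, mem_insert, mem_singleton] at hx hy
    rcases hx with rfl | rfl <;> rcases hy with rfl | rfl
    · exact absurd rfl hxy
    · exact h2.2.2
    · exact h2.2.2.symm
    · exact absurd rfl hxy
  · intro x hx
    rw [mem_insert, mem_singleton] at hx
    rcases hx with rfl | rfl
    · exact h2.1.1
    · exact h2.1.2

/-- the sum of the boundary coefficients -/
theorem sum_bd {C : Finset V} (z : Finset V → k) (hz : ∀ σ, z σ ≠ 0 → σ.card = 2 ∧ σ ⊆ C) :
    ∑ v ∈ C, bd k z {v} = 0 := by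
  have h1 : ∀ v ∈ C, bd k z {v} = ∑ x ∈ C, if x ≠ v then sgn k x {v} * z {x, v} else 0 := by
    intro v _
    unfold bd
    rw [← sum_filter]
    symm
    refine sum_subset_zero_on_sdiff ?_ ?_ ?_
    · intro x hx
      rw [mem_filter] at hx ⊢
      exact ⟨mem_univ x, by rw [mem_singleton]; exact hx.2⟩
    · intro x hx
      rw [mem_sdiff, mem_filter, mem_filter, mem_singleton] at hx
      obtain ⟨⟨_, h3⟩, h4⟩ := hx
      have h5 : x ∉ C := fun h => h4 ⟨h, h3⟩
      have h6 : z (insert x {v}) = 0 := by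
        by_contra hn
        exact h5 ((hz _ hn).2 (mem_insert_self x _))
      rw [h6, mul_zero]
    · intro x _
      rfl
  rw [sum_congr rfl h1, ← sum_product']
  refine sum_involution (fun p _ => p.swap) ?_ ?_ ?_ ?_
  · rintro ⟨v, x⟩ _
    simp only [Prod.swap_prod_mk]
    by_cases hxv : x = v
    · rw [if_neg (fun h => h hxv), if_neg (fun h => h hxv.symm)]
      ring
    · rw [if_pos hxv, if_pos (fun h => hxv h.symm)]
      have e1 : sgn k x {v} = if v < x then -1 else 1 := by
        unfold sgn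
        rw [filter_singleton]
        split_ifs <;> simp
      have e2 : sgn k v {x} = if x < v then -1 else 1 := by
        unfold sgn
        rw [filter_singleton]
        split_ifs <;> simp
      rw [e1, e2, pair_comm v x]
      rcases lt_or_gt_of_ne hxv with h | h
      · rw [if_neg (not_lt.2 h.le), if_pos h]
        ring
      · rw [if_pos h, if_neg (not_lt.2 h.le)]
        ring
  · rintro ⟨v, x⟩ _ hne heq
    simp only [Prod.swap_prod_mk, Prod.mk.injEq] at heq
    apply hne
    simp only
    rw [if_neg (fun h => h heq.1)]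
  · rintro ⟨v, x⟩ h
    rw [mem_product] at h ⊢
    exact ⟨h.2, h.1⟩
  · rintro ⟨v, x⟩ _
    rfl

/-- the boundary as a linear map -/
noncomputable def lin (P : Finset (V × V)) (D : Finset V) : (P → k) →ₗ[k] (D → k) where
  toFun f v := bd k (ch k P f) {v.1}
  map_add' f g := by
    funext v
    rw [Pi.add_apply, ← bd_add]
    congr 1
    funext σ
    unfold ch
    rw [← sum_add_distrib]
    refine sum_congr rfl fun p _ => ?_
    split_ifs
    · rfl
    · ring
  map_smul' r f := by
    funext v
    rw [RingHom.id_apply, Pi.smul_apply, smul_eq_mul, ← bd_smul]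
    congr 1
    funext σ
    unfold ch
    rw [mul_sum]
    refine sum_congr rfl fun p _ => ?_
    split_ifs
    · rfl
    · ring

/-- a set with many edges carries a cycle -/
theorem exists_cycle (G : SimpleGraph V) {C : Finset V} (hne : C.Nonempty)
    (he : S G C + 2 * C.card ≤ C.card ^ 2) :
    ∃ z : Finset V → k, (∀ σ, z σ ≠ 0 → G.IsNClique 2 σ ∧ σ ⊆ C) ∧ (∀ τ, bd k z τ = 0) ∧
      ∃ σ, z σ ≠ 0 := by
  have h1 := card_prs G C
  have hPC : C.card ≤ (prs G C).card := by omega
  obtain ⟨c₀, hc₀⟩ := hne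
  have hfr : Module.finrank k (↥(C.erase c₀) → k) < Module.finrank k (prs G C → k) := by
    rw [Module.finrank_fintype_fun_eq_card, Module.finrank_fintype_fun_eq_card,
      Fintype.card_coe, Fintype.card_coe, card_erase_of_mem hc₀]
    have : 0 < C.card := card_pos.2 ⟨c₀, hc₀⟩
    omega
  have hker := LinearMap.ker_ne_bot_of_finrank_lt (f := lin k (prs G C) (C.erase c₀)) hfr
  obtain ⟨f, hf, hf0⟩ := (Submodule.ne_bot_iff _).1 hker
  rw [LinearMap.mem_ker] at hf
  have hfv : ∀ v ∈ C.erase c₀, bd k (ch k (prs G C) f) {v} = 0 := by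
    intro v hv
    exact congrFun hf ⟨v, hv⟩
  have hsupp := fun σ h => ch_supp k f σ h
  have hsum := sum_bd k (C := C) (ch k (prs G C) f) (fun σ h => ⟨(hsupp σ h).1.card_eq,
    (hsupp σ h).2⟩)
  have hc0 : bd k (ch k (prs G C) f) {c₀} = 0 := by
    rw [← add_sum_erase C _ hc₀, sum_eq_zero hfv, add_zero] at hsum
    exact hsum
  refine ⟨ch k (prs G C) f, hsupp, ?_, ?_⟩
  · intro τ
    by_cases hτ : τ.card = 1
    · obtain ⟨v, rfl⟩ := card_eq_one.1 hτ
      by_cases hv : v ∈ C
      · by_cases hvc : v = c₀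
        · rw [hvc]
          exact hc0
        · exact hfv v (mem_erase.2 ⟨hvc, hv⟩)
      · unfold bd
        refine sum_eq_zero fun x _ => ?_
        have : ch k (prs G C) f (insert x {v}) = 0 := by
          by_contra hn
          exact hv ((hsupp _ hn).2 (mem_insert_of_mem (mem_singleton_self v)))
        rw [this, mul_zero]
    · unfold bd
      refine sum_eq_zero fun x hx => ?_
      have : ch k (prs G C) f (insert x τ) = 0 := by
        by_contra hn
        have h2 := (hsupp _ hn).1.card_eq
        rw [card_insert_of_notMem (mem_filter.1 hx).2] at h2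
        omega
      rw [this, mul_zero]
  · obtain ⟨p, hp⟩ := Function.ne_iff.1 hf0
    refine ⟨{p.1.1, p.1.2}, ?_⟩
    rw [ch_pair]
    exact hp

/-- a bad set carries a cycle -/
theorem bad_cycle (G : SimpleGraph V) {n : ℕ} {W : Finset V} (hb : Bad G n W) :
    ∃ z : Finset V → k, (∀ σ, z σ ≠ 0 → G.IsNClique (n + 1) σ ∧ σ ⊆ W) ∧
      (∀ τ, bd k z τ = 0) ∧ ∃ σ, z σ ≠ 0 := by
  induction hb with
  | cyc W C hC hne he =>
    obtain ⟨z, h1, h2, h3⟩ := exists_cycle k G hne he
    exact ⟨z, fun σ h => ⟨(h1 σ h).1, (h1 σ h).2.trans hC⟩, h2, h3⟩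
  | susp n W a b ha hb hab _ ih =>
    obtain ⟨z, h1, h2, σ, h3⟩ := ih
    have hadj : ∀ τ, z τ ≠ 0 → ∀ x ∈ τ, x ∈ W ∧ G.Adj a x ∧ G.Adj b x := by
      intro τ hτ x hx
      exact mem_filter.1 ((h1 τ hτ).2 hx)
    have hza : ∀ τ, a ∈ τ → z τ = 0 := by
      intro τ hτ
      by_contra hn
      exact G.irrefl (hadj τ hn a hτ).2.1
    have hzb : ∀ τ, b ∈ τ → z τ = 0 := by
      intro τ hτ
      by_contra hn
      exact G.irrefl (hadj τ hn b hτ).2.2
    have hcone : ∀ c ∈ W, (∀ τ, z τ ≠ 0 → ∀ x ∈ τ, G.Adj c x) → ∀ τ, cone k c z τ ≠ 0 →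
        G.IsNClique (n + 1 + 1) τ ∧ τ ⊆ W := by
      intro c hc hcx τ hτ
      unfold cone at hτ
      by_cases hcτ : c ∈ τ
      · rw [if_pos hcτ] at hτ
        have h4 : z (τ.erase c) ≠ 0 := right_ne_zero_of_mul hτ
        have h5 := (h1 _ h4).1.insert (hcx _ h4)
        rw [insert_erase hcτ] at h5
        refine ⟨h5, ?_⟩
        intro x hx
        by_cases hxc : x = c
        · rw [hxc]
          exact hc
        · exact (hadj _ h4 x (mem_erase.2 ⟨hxc, hx⟩)).1
      · rw [if_neg hcτ] at hτ
        exact absurd rfl hτ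
    refine ⟨fun τ => cone k a z τ - cone k b z τ, ?_, ?_, insert a σ, ?_⟩
    · intro τ hτ
      by_cases hτa : cone k a z τ = 0
      · refine hcone b hb (fun τ h x hx => (hadj τ h x hx).2.2) τ ?_
        intro h
        simp only [hτa, h, sub_zero] at hτ
        exact hτ rfl
      · exact hcone a ha (fun τ h x hx => (hadj τ h x hx).2.1) τ hτa
    · intro τ
      rw [bd_sub, bd_cone k h2 hza, bd_cone k h2 hzb, sub_self]
    · have haσ : a ∉ σ := fun h => h3 (hza σ h)
      have hbσ : b ∉ insert a σ := by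
        intro h
        rcases mem_insert.1 h with h | h
        · exact hab h.symm
        · exact h3 (hzb σ h)
      simp only
      unfold cone
      rw [if_pos (mem_insert_self a σ), if_neg hbσ, erase_insert haσ, sub_zero]
      exact mul_ne_zero (sgn_ne k a σ) h3

end edges

/-- piece HOM -/
theorem p_hom : HomStm.{u, w} := by
  intro k _ V _ _ G n hfree hH hb
  obtain ⟨z, h1, h2, σ, h3⟩ := bad_cycle k G hb
  obtain ⟨d, hd, hdz⟩ := hH z (fun σ h => (h1 σ h).1) h2
  have hd0 : ∀ τ, d τ = 0 := by
    intro τ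
    by_contra hn
    exact hfree τ (hd τ hn)
  apply h3
  rw [← hdz σ]
  unfold bd
  exact sum_eq_zero fun x _ => by rw [hd0, mul_zero]

end Pool.Agent.W2helper92.AF
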